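import Pool.Agent.W_0c5e58_h61.Final

/-!
Cylinders over slightly truncated plane tiles: for all heights `h ≥ h₀` the packing density of the
cylinder equals the packing density of its base.
-/

namespace Pool.Agent.Results.MP_0c5e58_co.TruncatedTiles

open Pool.TC MeasureTheory

/-- For a convex polygon `P` which tiles the plane, has no acute interior angle and no two obtuse
interior angles with sum `3π/2`, and every `h₀ > 0`, there is `ε > 0` such that every compact
`K ⊆ P` containing all points of `P` at distance `≥ ε` from the obtuse vertices satisfies
`δ(K × [0,h]) = δ(K) = |K| / |P|` for all `h ≥ h₀`. -/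
theorem result {N : ℕ} (P : Pgon N) (hP : P.Good) (hT : Tiles P.body) (h₀ : ℝ) (h0 : 0 < h₀) :
    ∃ ε > 0, ∀ K : Set E2, Trunc P ε K → ∀ h, h₀ ≤ h →
      packDensity (cyl K h) = packDensity K ∧ packDensity K = volume K / volume P.body :=
  theoremA hP hT h0

end Pool.Agent.Results.MP_0c5e58_co.TruncatedTiles
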